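import Mathlib

/-!
Project RAT (MP_8c6f77_pr), (B1): bad sets.

`C n` = finset of the walks with `n` steps of the class, `u`, `v` = number of thin, fat faces of a walk. From the
recursion `hR` (surgeries at the extreme faces of the row pairs), the flips and polynomial bounds of
`#C n / mu^n`: the walks with `u < n^a` or `v < n^a` have relative size `≤ n^(-k)` for every `k`, if `a < 1/2`.
-/

namespace Pool.Agent.RAT

open Finset

open Classical in
/-- Number of the walks with `n` steps and at most `j` thin faces. -/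
noncomputable def fw {W : Type*} (C : ℕ → Finset W) (u : W → ℕ) (n j : ℕ) : ℕ := ((C n).filter fun w => u w ≤ j).card

/-- Hypotheses of the abstract half: the bounds, the recursion of the surgeries and the double counting of the
flips. -/
structure Sur {W : Type*} (mu K r c0 : ℝ) (n0 : ℕ) (C : ℕ → Finset W) (u v : W → ℕ) : Prop where
  mu_pos : 0 < mu
  K_pos : 0 < K
  r_pos : 0 < r
  c0_pos : 0 < c0
  lo : ∀ n : ℕ, 1 ≤ n → (n : ℝ) ^ (-K) / K * mu ^ n ≤ (C n).card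
  up : ∀ n : ℕ, 1 ≤ n → ((C n).card : ℝ) ≤ K * (n : ℝ) ^ K * mu ^ n
  hR : ∀ n : ℕ, n0 ≤ n → ∀ j : ℕ, r * Real.sqrt n * (fw C u n j : ℝ) ≤
    c0 * ((j : ℝ) + 4) * ((fw C u (n + 2) (j + 4) : ℝ) + fw C u (n + 4) (j + 4) + fw C u (n + 6) (j + 4) +
      fw C u (n + 8) (j + 4))
  flip : ∀ (n : ℕ) (G : ℕ → ℕ → ℝ), ∑ w ∈ C n, (u w : ℝ) * G (u w - 1) (v w + 1) =
    ∑ w ∈ C (n + 4), (v w : ℝ) * G (u w) (v w)

lemma rpow_shift {n t : ℕ} (hn : 1 ≤ n) (ht : t ≤ 8) (x : ℝ) :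
    ((n + t : ℕ) : ℝ) ^ x ≤ 9 ^ |x| * (n : ℝ) ^ x := by
  have hn' : (1 : ℝ) ≤ n := by exact_mod_cast hn
  have ht' : (t : ℝ) ≤ 8 := by exact_mod_cast ht
  have ht0 : (0 : ℝ) ≤ t := by positivity
  push_cast
  rcases le_total 0 x with hx | hx
  · rw [abs_of_nonneg hx, ← Real.mul_rpow (by norm_num) (by positivity)]
    exact Real.rpow_le_rpow (by positivity) (by linarith) hx
  · have h1 : ((n : ℝ) + t) ^ x ≤ (n : ℝ) ^ x := Real.rpow_le_rpow_of_nonpos (by positivity) (by linarith) hx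
    have h2 : (1 : ℝ) ≤ 9 ^ |x| := Real.one_le_rpow (by norm_num) (abs_nonneg x)
    have h3 : (0 : ℝ) ≤ (n : ℝ) ^ x := by positivity
    nlinarith

lemma pow_shift {mu : ℝ} (hmu : 0 < mu) {n t : ℕ} (ht : t ≤ 8) : mu ^ (n + t) ≤ (1 + mu) ^ 8 * mu ^ n := by
  rw [pow_add, mul_comm]
  refine mul_le_mul_of_nonneg_right ?_ (by positivity)
  calc mu ^ t ≤ (1 + mu) ^ t := pow_le_pow_left₀ hmu.le (by linarith) t
    _ ≤ (1 + mu) ^ 8 := pow_le_pow_right₀ (by linarith) ht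

namespace Sur

variable {W : Type*} {mu K r c0 : ℝ} {n0 : ℕ} {C : ℕ → Finset W} {u v : W → ℕ}

/-- The flips turn walks with many thin and few fat faces into each other. -/
lemma hI (h : Sur mu K r c0 n0 C u v) (n a b : ℕ) :
    ((a : ℝ) + 1) * ((C n).filter fun w => a + 1 ≤ u w ∧ v w ≤ b).card ≤
      ((b : ℝ) + 1) * ((C (n + 4)).filter fun w => a ≤ u w ∧ v w ≤ b + 1).card := by
  have hf := h.flip n (fun x y => if a ≤ x ∧ y ≤ b + 1 then 1 else 0)
  rw [card_filter, card_filter]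
  push_cast
  rw [mul_sum, mul_sum]
  calc ∑ w ∈ C n, ((a : ℝ) + 1) * (if a + 1 ≤ u w ∧ v w ≤ b then 1 else 0)
      ≤ ∑ w ∈ C n, (u w : ℝ) * (if a ≤ u w - 1 ∧ v w + 1 ≤ b + 1 then 1 else 0) := by
        refine sum_le_sum fun w _ => ?_
        by_cases h1 : a + 1 ≤ u w ∧ v w ≤ b
        · rw [if_pos h1, if_pos (by omega), mul_one, mul_one]
          exact_mod_cast h1.1
        · rw [if_neg h1, mul_zero]
          split_ifs <;> simp
    _ = ∑ w ∈ C (n + 4), (v w : ℝ) * (if a ≤ u w ∧ v w ≤ b + 1 then 1 else 0) := hf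
    _ ≤ _ := by
        refine sum_le_sum fun w _ => ?_
        split_ifs with h1
        · rw [mul_one, mul_one]
          exact_mod_cast h1.2
        · simp

/-- trivial bound of a part of `C n`, for `n ≤ n1`. -/
lemma triv (h : Sur mu K r c0 n0 C u v) {n n1 : ℕ} (hn : 1 ≤ n) (h1 : n ≤ n1) {y : ℝ} (hy : 0 ≤ y) (p : W → Prop)
    [DecidablePred p] :
    (((C n).filter p).card : ℝ) ≤ K * (n1 : ℝ) ^ y * (n : ℝ) ^ (K - y) * mu ^ n := by
  have hn' : (1 : ℝ) ≤ n := by exact_mod_cast hn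
  have hn0 : (0 : ℝ) < n := by linarith
  have hmu := h.mu_pos
  have hK := h.K_pos
  calc (((C n).filter p).card : ℝ) ≤ (C n).card := by exact_mod_cast card_filter_le _ _
    _ ≤ K * (n : ℝ) ^ K * mu ^ n := h.up n hn
    _ ≤ _ := by
      refine mul_le_mul_of_nonneg_right ?_ (by positivity)
      rw [mul_assoc]
      refine mul_le_mul_of_nonneg_left ?_ hK.le
      have : (n : ℝ) ^ K = (n : ℝ) ^ y * (n : ℝ) ^ (K - y) := by
        rw [← Real.rpow_add hn0]; congr 1; ring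
      rw [this]
      refine mul_le_mul_of_nonneg_right ?_ (by positivity)
      exact Real.rpow_le_rpow hn0.le (by exact_mod_cast h1) hy

/-- Few thin faces. -/
theorem small_u (h : Sur mu K r c0 n0 C u v) {e : ℝ} (he : 0 < e) (he2 : e ≤ 1 / 2) (k : ℕ) :
    ∀ D : ℝ, 0 < D → ∃ M : ℝ, 0 < M ∧ ∀ n : ℕ, 1 ≤ n → ∀ j : ℕ, (j : ℝ) ≤ D * (n : ℝ) ^ (1 / 2 - e) →
      (fw C u n j : ℝ) ≤ M * (n : ℝ) ^ (K - k * e) * mu ^ n := by
  classical
  have hmu := h.mu_pos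
  have hK := h.K_pos
  have hr := h.r_pos
  have hc := h.c0_pos
  induction k with
  | zero =>
    intro D hD
    refine ⟨K, hK, fun n hn j _ => ?_⟩
    have := h.triv hn le_rfl (y := 0) le_rfl (fun w => u w ≤ j)
    simpa [fw] using this
  | succ k ih =>
    intro D hD
    obtain ⟨M, hM, hb⟩ := ih (D + 4) (by linarith)
    set n1 : ℕ := max n0 1 with hn1
    set y : ℝ := ((k + 1 : ℕ) : ℝ) * e with hy
    have hy0 : 0 ≤ y := by positivity
    set M1 : ℝ := K * (n1 : ℝ) ^ y with hM1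
    set x : ℝ := K - k * e with hx
    set M2 : ℝ := c0 * (D + 4) / r * (4 * (M * (9 ^ |x|) * (1 + mu) ^ 8)) with hM2
    have hM2p : 0 < M2 := by positivity
    have hM1p : 0 < M1 := by
      have : (0 : ℝ) < n1 := by rw [hn1]; exact_mod_cast lt_of_lt_of_le Nat.one_pos (le_max_right _ _)
      positivity
    refine ⟨M1 + M2, by linarith, fun n hn j hj => ?_⟩
    have hn' : (1 : ℝ) ≤ n := by exact_mod_cast hn
    have hnp : (0 : ℝ) < n := by linarith
    have hnn : 0 ≤ (n : ℝ) ^ (K - y) * mu ^ n := by positivity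
    rcases le_total n n1 with hle | hge
    · have := h.triv hn hle hy0 (fun w => u w ≤ j)
      have h2 : 0 ≤ M2 * ((n : ℝ) ^ (K - y) * mu ^ n) := mul_nonneg hM2p.le hnn
      calc _ ≤ M1 * (n : ℝ) ^ (K - y) * mu ^ n := this
        _ ≤ _ := by nlinarith
    · have hR := h.hR n ((le_max_left _ _).trans hge) j
      have hs0 : 0 ≤ (n : ℝ) ^ (1 / 2 - e) := by positivity
      have hs1 : 1 ≤ (n : ℝ) ^ (1 / 2 - e) := Real.one_le_rpow hn' (by linarith)
      have hj3 : (j : ℝ) + 4 ≤ (D + 4) * (n : ℝ) ^ (1 / 2 - e) := by nlinarith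
      have hbd : ∀ t : ℕ, t ≤ 8 → (fw C u (n + t) (j + 4) : ℝ) ≤
          (M * (9 ^ |x|) * (1 + mu) ^ 8) * ((n : ℝ) ^ x * mu ^ n) := by
        intro t ht8
        have h1 := hb (n + t) (by omega) (j + 4) (by
          push_cast
          refine hj3.trans (mul_le_mul_of_nonneg_left ?_ (by linarith))
          refine Real.rpow_le_rpow (by positivity) ?_ (by linarith)
          have : (0 : ℝ) ≤ t := by positivity
          linarith)
        refine h1.trans ?_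
        have h2 := rpow_shift hn ht8 x
        have h3 := pow_shift hmu (n := n) ht8
        calc M * ((n + t : ℕ) : ℝ) ^ x * mu ^ (n + t) ≤ M * (9 ^ |x| * (n : ℝ) ^ x) * ((1 + mu) ^ 8 * mu ^ n) := by
              gcongr
          _ = _ := by ring
      have hsum : (fw C u (n + 2) (j + 4) : ℝ) + fw C u (n + 4) (j + 4) + fw C u (n + 6) (j + 4) +
          fw C u (n + 8) (j + 4) ≤ 4 * (M * (9 ^ |x|) * (1 + mu) ^ 8) * ((n : ℝ) ^ x * mu ^ n) := by
        have b2 := hbd 2 (by norm_num)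
        have b4 := hbd 4 (by norm_num)
        have b6 := hbd 6 (by norm_num)
        have b8 := hbd 8 (by norm_num)
        linarith
      have hsq : Real.sqrt n = (n : ℝ) ^ (1 / 2 : ℝ) := Real.sqrt_eq_rpow _
      have hsp : 0 < Real.sqrt n := Real.sqrt_pos.2 hnp
      have h4 : r * Real.sqrt n * (fw C u n j : ℝ) ≤
          c0 * ((D + 4) * (n : ℝ) ^ (1 / 2 - e)) * (4 * (M * (9 ^ |x|) * (1 + mu) ^ 8) * ((n : ℝ) ^ x * mu ^ n)) := by
        refine hR.trans ?_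
        refine mul_le_mul (mul_le_mul_of_nonneg_left hj3 hc.le) hsum (by positivity) ?_
        exact mul_nonneg hc.le (mul_nonneg (by linarith) hs0)
      have h5 : (fw C u n j : ℝ) ≤ M2 * ((n : ℝ) ^ (K - y) * mu ^ n) := by
        have hrs : 0 < r * Real.sqrt n := by positivity
        rw [← mul_le_mul_iff_right₀ hrs]
        refine h4.trans (le_of_eq ?_)
        have e1 : (n : ℝ) ^ (1 / 2 - e) * (n : ℝ) ^ x = (n : ℝ) ^ (1 / 2 : ℝ) * (n : ℝ) ^ (K - y) := by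
          rw [← Real.rpow_add hnp, ← Real.rpow_add hnp]
          congr 1
          rw [hx, hy]; push_cast; ring
        have e2 : r * (c0 * (D + 4) / r) = c0 * (D + 4) := by field_simp
        rw [hsq, hM2]
        generalize (4 * (M * (9 ^ |x|) * (1 + mu) ^ 8)) = G at *
        calc _ = c0 * (D + 4) * (G * mu ^ n * ((n : ℝ) ^ (1 / 2 - e) * (n : ℝ) ^ x)) := by ring
          _ = (r * (c0 * (D + 4) / r)) * (G * mu ^ n * ((n : ℝ) ^ (1 / 2 : ℝ) * (n : ℝ) ^ (K - y))) := by rw [e1, e2]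
          _ = _ := by ring
      calc _ ≤ M2 * ((n : ℝ) ^ (K - y) * mu ^ n) := h5
        _ ≤ _ := by
          have : 0 ≤ M1 * ((n : ℝ) ^ (K - y) * mu ^ n) := mul_nonneg hM1p.le hnn
          nlinarith

/-- Many thin faces but few fat faces. -/
theorem small_v (h : Sur mu K r c0 n0 C u v) {e : ℝ} (he : 0 < e) (he2 : e ≤ 1 / 8) (k : ℕ) :
    ∀ D1 D2 : ℝ, 0 < D1 → 0 < D2 → ∃ M : ℝ, 0 < M ∧ ∀ n : ℕ, 1 ≤ n → ∀ a b : ℕ, D1 * (n : ℝ) ^ (1 / 2 - e) ≤ a →
      (b : ℝ) ≤ D2 * (n : ℝ) ^ (1 / 2 - 2 * e) →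
      (((C n).filter fun w => a ≤ u w ∧ v w ≤ b).card : ℝ) ≤ M * (n : ℝ) ^ (K - k * e) * mu ^ n := by
  have hmu := h.mu_pos
  have hK := h.K_pos
  induction k with
  | zero =>
    intro D1 D2 _ _
    refine ⟨K, hK, fun n hn a b _ _ => ?_⟩
    have := h.triv hn le_rfl (y := 0) le_rfl (fun w => a ≤ u w ∧ v w ≤ b)
    simpa using this
  | succ k ih =>
    intro D1 D2 hD1 hD2
    obtain ⟨M, hM, hb⟩ := ih (D1 / 2 * 9⁻¹) (D2 + 1) (by positivity) (by linarith)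
    obtain ⟨n1, hn1⟩ : ∃ n1 : ℕ, 1 ≤ n1 ∧ ∀ n : ℕ, n1 ≤ n → 2 ≤ D1 * (n : ℝ) ^ (1 / 2 - e) := by
      have ht : Filter.Tendsto (fun n : ℕ => (n : ℝ) ^ (1 / 2 - e)) Filter.atTop Filter.atTop :=
        (tendsto_rpow_atTop (by linarith)).comp tendsto_natCast_atTop_atTop
      obtain ⟨m, hm⟩ := Filter.eventually_atTop.1 (ht.eventually_ge_atTop (2 / D1))
      refine ⟨max m 1, le_max_right _ _, fun n hn => ?_⟩
      have := hm n ((le_max_left _ _).trans hn)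
      rw [div_le_iff₀ hD1] at this
      linarith
    set y : ℝ := ((k + 1 : ℕ) : ℝ) * e with hy
    have hy0 : 0 ≤ y := by positivity
    set M1 : ℝ := K * (n1 : ℝ) ^ y with hM1
    set x : ℝ := K - k * e with hx
    set M2 : ℝ := (D2 + 1) / D1 * (M * (9 ^ |x|) * (1 + mu) ^ 8) with hM2
    have hM2p : 0 < M2 := by positivity
    have hM1p : 0 < M1 := by
      have : (0 : ℝ) < n1 := by exact_mod_cast hn1.1
      positivity
    refine ⟨M1 + M2, by linarith, fun n hn a b ha hbb => ?_⟩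
    have hn' : (1 : ℝ) ≤ n := by exact_mod_cast hn
    have hnp : (0 : ℝ) < n := by linarith
    have hnn : 0 ≤ (n : ℝ) ^ (K - y) * mu ^ n := by positivity
    rcases le_total n n1 with hle | hge
    · have := h.triv hn hle hy0 (fun w => a ≤ u w ∧ v w ≤ b)
      have h2 : 0 ≤ M2 * ((n : ℝ) ^ (K - y) * mu ^ n) := mul_nonneg hM2p.le hnn
      calc _ ≤ M1 * (n : ℝ) ^ (K - y) * mu ^ n := this
        _ ≤ _ := by nlinarith
    · have ha2 : (2 : ℝ) ≤ a := (hn1.2 n hge).trans ha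
      obtain ⟨a', rfl⟩ : ∃ a', a = a' + 1 := ⟨a - 1, by
        have : 2 ≤ a := by exact_mod_cast ha2
        omega⟩
      have hI := h.hI n a' b
      push_cast at ha ha2
      have hs0 : 0 ≤ (n : ℝ) ^ (1 / 2 - 2 * e) := by positivity
      have hs1 : 1 ≤ (n : ℝ) ^ (1 / 2 - 2 * e) := Real.one_le_rpow hn' (by linarith)
      have hb1 : (b : ℝ) + 1 ≤ (D2 + 1) * (n : ℝ) ^ (1 / 2 - 2 * e) := by nlinarith
      have h1 := hb (n + 4) (by omega) a' (b + 1) (by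
        have h9 := rpow_shift (t := 4) hn (by norm_num) (1 / 2 - e)
        rw [abs_of_nonneg (by linarith : (0 : ℝ) ≤ 1 / 2 - e)] at h9
        have h10 : (9 : ℝ) ^ (1 / 2 - e) ≤ 9 := by
          calc (9 : ℝ) ^ (1 / 2 - e) ≤ 9 ^ (1 : ℝ) := Real.rpow_le_rpow_of_exponent_le (by norm_num) (by linarith)
            _ = 9 := Real.rpow_one _
        have h11 : 0 ≤ (n : ℝ) ^ (1 / 2 - e) := by positivity
        have h12 : ((n + 4 : ℕ) : ℝ) ^ (1 / 2 - e) ≤ 9 * (n : ℝ) ^ (1 / 2 - e) :=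
          h9.trans (mul_le_mul_of_nonneg_right h10 h11)
        calc D1 / 2 * 9⁻¹ * ((n + 4 : ℕ) : ℝ) ^ (1 / 2 - e) ≤ D1 / 2 * 9⁻¹ * (9 * (n : ℝ) ^ (1 / 2 - e)) :=
              mul_le_mul_of_nonneg_left h12 (by positivity)
          _ = (D1 * (n : ℝ) ^ (1 / 2 - e)) / 2 := by ring
          _ ≤ a' := by linarith) (by
        push_cast
        refine hb1.trans (mul_le_mul_of_nonneg_left ?_ (by linarith))
        exact Real.rpow_le_rpow (by positivity) (by linarith) (by linarith))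
      have h2 := rpow_shift (t := 4) hn (by norm_num) x
      have h3 := pow_shift hmu (n := n) (t := 4) (by norm_num)
      have h4 : (((C (n + 4)).filter fun w => a' ≤ u w ∧ v w ≤ b + 1).card : ℝ) ≤
          (M * (9 ^ |x|) * (1 + mu) ^ 8) * ((n : ℝ) ^ x * mu ^ n) := by
        refine h1.trans ?_
        calc M * ((n + 4 : ℕ) : ℝ) ^ x * mu ^ (n + 4) ≤ M * (9 ^ |x| * (n : ℝ) ^ x) * ((1 + mu) ^ 8 * mu ^ n) := by
              gcongr
          _ = _ := by ring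
      have h5 : (D1 * (n : ℝ) ^ (1 / 2 - e)) * (((C n).filter fun w => a' + 1 ≤ u w ∧ v w ≤ b).card : ℝ) ≤
          ((D2 + 1) * (n : ℝ) ^ (1 / 2 - 2 * e)) * ((M * (9 ^ |x|) * (1 + mu) ^ 8) * ((n : ℝ) ^ x * mu ^ n)) := by
        calc _ ≤ ((a' : ℝ) + 1) * (((C n).filter fun w => a' + 1 ≤ u w ∧ v w ≤ b).card : ℝ) :=
              mul_le_mul_of_nonneg_right ha (Nat.cast_nonneg _)
          _ ≤ _ := hI
          _ ≤ _ := mul_le_mul hb1 h4 (Nat.cast_nonneg _) (mul_nonneg (by linarith) hs0)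
      have h6 : (((C n).filter fun w => a' + 1 ≤ u w ∧ v w ≤ b).card : ℝ) ≤ M2 * ((n : ℝ) ^ (K - y) * mu ^ n) := by
        have hrs : 0 < D1 * (n : ℝ) ^ (1 / 2 - e) := by positivity
        rw [← mul_le_mul_iff_right₀ hrs]
        refine h5.trans (le_of_eq ?_)
        have e1 : (n : ℝ) ^ (1 / 2 - 2 * e) * (n : ℝ) ^ x = (n : ℝ) ^ (1 / 2 - e) * (n : ℝ) ^ (K - y) := by
          rw [← Real.rpow_add hnp, ← Real.rpow_add hnp]
          congr 1
          rw [hx, hy]; push_cast; ring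
        have e2 : D1 * ((D2 + 1) / D1) = D2 + 1 := by field_simp
        rw [hM2]
        generalize (M * (9 ^ |x|) * (1 + mu) ^ 8) = G at *
        calc _ = (D2 + 1) * (G * mu ^ n * ((n : ℝ) ^ (1 / 2 - 2 * e) * (n : ℝ) ^ x)) := by ring
          _ = (D1 * ((D2 + 1) / D1)) * (G * mu ^ n * ((n : ℝ) ^ (1 / 2 - e) * (n : ℝ) ^ (K - y))) := by rw [e1, e2]
          _ = _ := by ring
      calc _ ≤ M2 * ((n : ℝ) ^ (K - y) * mu ^ n) := h6
        _ ≤ _ := by
          have : 0 ≤ M1 * ((n : ℝ) ^ (K - y) * mu ^ n) := mul_nonneg hM1p.le hnn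
          nlinarith

/-- THE BAD SET: for every `a < 1/2` and every `k`, the walks with fewer than `n^a` thin or fewer than `n^a` fat faces
are a part `≤ n^(-k)` of `C n`. -/
theorem bad (h : Sur mu K r c0 n0 C u v) {a : ℝ} (ha : a < 1 / 2) (k : ℕ) : ∃ n1 : ℕ, ∀ n : ℕ, n1 ≤ n →
    (n : ℝ) ^ k * ((C n).filter fun w => (u w : ℝ) < (n : ℝ) ^ a ∨ (v w : ℝ) < (n : ℝ) ^ a).card ≤ (C n).card := by
  classical
  have hmu := h.mu_pos
  have hK := h.K_pos
  obtain ⟨e, he, he8, hea⟩ : ∃ e : ℝ, 0 < e ∧ e ≤ 1 / 8 ∧ a ≤ 1 / 2 - 2 * e :=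
    ⟨min ((1 / 2 - a) / 2) (1 / 8), lt_min (by linarith) (by norm_num), min_le_right _ _, by
      have := min_le_left ((1 / 2 - a) / 2) (1 / 8)
      linarith⟩
  obtain ⟨k', hk'⟩ := exists_nat_ge ((k + 2 * K + 1) / e)
  rw [div_le_iff₀ he] at hk'
  obtain ⟨M1, hM1, h1⟩ := h.small_u he (by linarith) k' 1 one_pos
  obtain ⟨M2, hM2, h2⟩ := h.small_v he he8 k' 1 1 one_pos one_pos
  obtain ⟨n1, hn1⟩ := exists_nat_ge (K * (M1 + M2))
  refine ⟨max n1 1, fun n hn => ?_⟩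
  have hn1' : 1 ≤ n := (le_max_right _ _).trans hn
  have hn' : (1 : ℝ) ≤ n := by exact_mod_cast hn1'
  have hnp : (0 : ℝ) < n := by linarith
  have hKn : K * (M1 + M2) ≤ n := hn1.trans (by exact_mod_cast (le_max_left _ _).trans hn)
  set j1 : ℕ := ⌊(n : ℝ) ^ (1 / 2 - e)⌋₊
  set j2 : ℕ := ⌊(n : ℝ) ^ (1 / 2 - 2 * e)⌋₊
  have hj1 : (j1 : ℝ) ≤ 1 * (n : ℝ) ^ (1 / 2 - e) := by rw [one_mul]; exact Nat.floor_le (by positivity)
  have hj1' : 1 * (n : ℝ) ^ (1 / 2 - e) ≤ ((j1 + 1 : ℕ) : ℝ) := by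
    rw [one_mul]; push_cast; exact (Nat.lt_floor_add_one _).le
  have hj2 : (j2 : ℝ) ≤ 1 * (n : ℝ) ^ (1 / 2 - 2 * e) := by rw [one_mul]; exact Nat.floor_le (by positivity)
  have ha1 : (n : ℝ) ^ a ≤ (n : ℝ) ^ (1 / 2 - e) := Real.rpow_le_rpow_of_exponent_le hn' (by linarith)
  have ha2 : (n : ℝ) ^ a ≤ (n : ℝ) ^ (1 / 2 - 2 * e) := Real.rpow_le_rpow_of_exponent_le hn' (by linarith)
  have hsub : ((C n).filter fun w => (u w : ℝ) < (n : ℝ) ^ a ∨ (v w : ℝ) < (n : ℝ) ^ a) ⊆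
      ((C n).filter fun w => u w ≤ j1) ∪ ((C n).filter fun w => j1 + 1 ≤ u w ∧ v w ≤ j2) := by
    intro w hw
    rw [mem_filter] at hw
    rw [mem_union, mem_filter, mem_filter]
    by_cases hu : u w ≤ j1
    · exact Or.inl ⟨hw.1, hu⟩
    · refine Or.inr ⟨hw.1, by omega, ?_⟩
      rcases hw.2 with h3 | h3
      · exact absurd (Nat.le_floor (h3.le.trans ha1)) hu
      · exact Nat.le_floor (h3.le.trans ha2)
  have hcard : (((C n).filter fun w => (u w : ℝ) < (n : ℝ) ^ a ∨ (v w : ℝ) < (n : ℝ) ^ a).card : ℝ) ≤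
      (M1 + M2) * (n : ℝ) ^ (K - k' * e) * mu ^ n := by
    calc _ ≤ ((((C n).filter fun w => u w ≤ j1) ∪ ((C n).filter fun w => j1 + 1 ≤ u w ∧ v w ≤ j2)).card : ℝ) := by
          exact_mod_cast card_le_card hsub
      _ ≤ (fw C u n j1 : ℝ) + ((C n).filter fun w => j1 + 1 ≤ u w ∧ v w ≤ j2).card := by
          exact_mod_cast card_union_le _ _
      _ ≤ M1 * (n : ℝ) ^ (K - k' * e) * mu ^ n + M2 * (n : ℝ) ^ (K - k' * e) * mu ^ n :=
          add_le_add (h1 n hn1' j1 hj1) (h2 n hn1' (j1 + 1) j2 hj1' hj2)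
      _ = _ := by ring
  calc (n : ℝ) ^ k * (((C n).filter fun w => (u w : ℝ) < (n : ℝ) ^ a ∨ (v w : ℝ) < (n : ℝ) ^ a).card : ℝ)
      ≤ (n : ℝ) ^ k * ((M1 + M2) * (n : ℝ) ^ (K - k' * e) * mu ^ n) := by gcongr
    _ = (K * (M1 + M2)) * ((n : ℝ) ^ k * (n : ℝ) ^ (K - k' * e) * (n : ℝ) ^ K) * ((n : ℝ) ^ (-K) / K * mu ^ n) := by
        have e1 : (n : ℝ) ^ K * (n : ℝ) ^ (-K) = 1 := by
          rw [← Real.rpow_add hnp]; simp
        have e2 : K * ((n : ℝ) ^ (-K) / K) = (n : ℝ) ^ (-K) := by field_simp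
        calc _ = (M1 + M2) * (n : ℝ) ^ k * (n : ℝ) ^ (K - k' * e) * mu ^ n * 1 := by ring
          _ = (M1 + M2) * (n : ℝ) ^ k * (n : ℝ) ^ (K - k' * e) * mu ^ n * ((n : ℝ) ^ K * (K * ((n : ℝ) ^ (-K) / K))) := by
            rw [e2, e1]
          _ = _ := by ring
    _ ≤ (K * (M1 + M2)) * ((n : ℝ) ^ (-1 : ℝ)) * ((n : ℝ) ^ (-K) / K * mu ^ n) := by
        have : (n : ℝ) ^ k * (n : ℝ) ^ (K - k' * e) * (n : ℝ) ^ K ≤ (n : ℝ) ^ (-1 : ℝ) := by
          rw [← Real.rpow_natCast, ← Real.rpow_add hnp, ← Real.rpow_add hnp]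
          exact Real.rpow_le_rpow_of_exponent_le hn' (by linarith)
        gcongr
    _ ≤ 1 * ((n : ℝ) ^ (-K) / K * mu ^ n) := by
        have : (K * (M1 + M2)) * ((n : ℝ) ^ (-1 : ℝ)) ≤ 1 := by
          rw [Real.rpow_neg_one, ← div_eq_mul_inv, div_le_one hnp]
          exact hKn
        gcongr
    _ ≤ (C n).card := by rw [one_mul]; exact h.lo n hn1'

end Sur

end Pool.Agent.RAT
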