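import Pool.Agent.RAT.A.Mul

/-!
Project RAT (MP_8c6f77_pr), (B4): comparison of `a (N + n)` with `μ^n a N` for `N ≥ n^5`, from the ratio theorem with
rate (steps of 4), abstract sequences.
-/

namespace Pool.Agent.RAT

/-- Small `N`: the polynomial bounds are enough. -/
lemma cmp_small {a : ℕ → ℝ} {mu K : ℝ} (hmu : 1 ≤ mu) (hK : 1 ≤ K) (lo : ∀ n : ℕ, 1 ≤ n → mu ^ n ≤ a n)
    (up : ∀ n : ℕ, 1 ≤ n → a n ≤ K * (n : ℝ) ^ K * mu ^ n) (N0 : ℕ) :
    ∀ n N : ℕ, 1 ≤ n → n ≤ N → N ≤ N0 → (K * (2 * (N0 : ℝ)) ^ K)⁻¹ * mu ^ n * a N ≤ a (N + n) ∧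
      a (N + n) ≤ (K * (2 * (N0 : ℝ)) ^ K) * mu ^ n * a N := by
  intro n N hn hnN hN
  have hN1 : 1 ≤ N := hn.trans hnN
  have hN' : (1 : ℝ) ≤ N := by exact_mod_cast hN1
  have hN0' : (N : ℝ) ≤ N0 := by exact_mod_cast hN
  have hmu0 : 0 < mu := by linarith
  have hK0 : 0 < K := by linarith
  have hc : 0 < K * (2 * (N0 : ℝ)) ^ K := by
    have : (0 : ℝ) < N0 := by linarith
    positivity
  have h1 := lo N hN1
  have h2 := up N hN1
  have h3 := lo (N + n) (by omega)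
  have h4 := up (N + n) (by omega)
  have hp : (N : ℝ) ^ K ≤ (2 * (N0 : ℝ)) ^ K := Real.rpow_le_rpow (by positivity) (by linarith) hK0.le
  have hp2 : ((N + n : ℕ) : ℝ) ^ K ≤ (2 * (N0 : ℝ)) ^ K := by
    refine Real.rpow_le_rpow (by positivity) ?_ hK0.le
    have : (n : ℝ) ≤ N := by exact_mod_cast hnN
    push_cast; linarith
  constructor
  · rw [mul_assoc, inv_mul_le_iff₀ hc]
    calc mu ^ n * a N ≤ mu ^ n * (K * (N : ℝ) ^ K * mu ^ N) := by gcongr
      _ ≤ mu ^ n * (K * (2 * (N0 : ℝ)) ^ K * mu ^ N) := by gcongr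
      _ = K * (2 * (N0 : ℝ)) ^ K * mu ^ (N + n) := by rw [pow_add]; ring
      _ ≤ _ := by gcongr
  · calc a (N + n) ≤ K * ((N + n : ℕ) : ℝ) ^ K * mu ^ (N + n) := h4
      _ ≤ K * (2 * (N0 : ℝ)) ^ K * mu ^ (N + n) := by gcongr
      _ = K * (2 * (N0 : ℝ)) ^ K * mu ^ n * mu ^ N := by rw [pow_add]; ring
      _ ≤ _ := by gcongr

/-- THE COMPARISON. -/
theorem cmp_of {a : ℕ → ℝ} {mu K A be : ℝ} (hpos : ∀ n, 0 < a n) (hmu : 1 ≤ mu) (hK : 1 ≤ K)
    (lo : ∀ n : ℕ, 1 ≤ n → mu ^ n ≤ a n) (up : ∀ n : ℕ, 1 ≤ n → a n ≤ K * (n : ℝ) ^ K * mu ^ n)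
    (h2 : ∀ n : ℕ, 1 ≤ n → a (n + 1) ≤ 2 * a n) (hA : 0 < A)
    (hr : ∀ n : ℕ, 1 ≤ n → |a (n + 4) / (mu ^ 4 * a n) - 1| ≤ A / (n : ℝ) ^ be) (hbe : 1 / 5 < be) :
    ∃ c C : ℝ, 0 < c ∧ 0 < C ∧ ∀ n N : ℕ, 1 ≤ n → n ^ 5 ≤ N →
      c * mu ^ n * a N ≤ a (N + n) ∧ a (N + n) ≤ C * mu ^ n * a N := by
  have hmu0 : 0 < mu := by linarith
  have hK0 : 0 < K := by linarith
  obtain ⟨N0, hN0⟩ : ∃ N0 : ℕ, ∀ N : ℕ, N0 ≤ N → 1 ≤ N → 8 * A * (N : ℝ) ^ (1 / 5 : ℝ) ≤ (N : ℝ) ^ be := by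
    have ht : Filter.Tendsto (fun n : ℕ => (n : ℝ) ^ (be - 1 / 5)) Filter.atTop Filter.atTop :=
      (tendsto_rpow_atTop (by linarith)).comp tendsto_natCast_atTop_atTop
    obtain ⟨m, hm⟩ := Filter.eventually_atTop.1 (ht.eventually_ge_atTop (8 * A))
    refine ⟨m, fun N hN hN1 => ?_⟩
    have hN' : (0 : ℝ) < N := by exact_mod_cast hN1
    have e : (N : ℝ) ^ be = (N : ℝ) ^ (be - 1 / 5) * (N : ℝ) ^ (1 / 5 : ℝ) := by
      rw [← Real.rpow_add hN']; congr 1; ring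
    rw [e]
    exact mul_le_mul_of_nonneg_right (hm N hN) (by positivity)
  have hd : ∀ i N : ℕ, 1 ≤ N → a (N + i) ≤ 2 ^ i * a N := by
    intro i N hN
    induction i with
    | zero => simp
    | succ i ih =>
      calc a (N + (i + 1)) ≤ 2 * a (N + i) := h2 (N + i) (by omega)
        _ ≤ 2 * (2 ^ i * a N) := by linarith
        _ = _ := by rw [pow_succ]; ring
  set M : ℝ := K * (2 * ((N0 + 1 : ℕ) : ℝ)) ^ K with hM
  have hMp : 0 < M := by positivity
  refine ⟨min M⁻¹ (1 / 32), max M 16, lt_min (by positivity) (by norm_num), lt_max_of_lt_left hMp, ?_⟩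
  intro n N hn hN
  have hnN : n ≤ N := by
    refine le_trans ?_ hN
    calc n = n ^ 1 := (pow_one n).symm
      _ ≤ n ^ 5 := Nat.pow_le_pow_right hn (by norm_num)
  have hN1 : 1 ≤ N := hn.trans hnN
  have hmn : 0 < mu ^ n := by positivity
  have haN := hpos N
  rcases le_total N (N0 + 1) with hle | hge
  · obtain ⟨h3, h4⟩ := cmp_small hmu hK lo up (N0 + 1) n N hn hnN hle
    constructor
    · refine le_trans ?_ h3
      have : min M⁻¹ (1 / 32) ≤ M⁻¹ := min_le_left _ _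
      gcongr
    · refine h4.trans ?_
      have : M ≤ max M 16 := le_max_left _ _
      gcongr
  · have hb := hN0 N (by omega) hN1
    have hNr : (0 : ℝ) < N := by exact_mod_cast hN1
    have hn5 : (n : ℝ) ≤ (N : ℝ) ^ (1 / 5 : ℝ) := by
      have : ((n : ℝ) ^ 5) ≤ N := by exact_mod_cast hN
      calc (n : ℝ) = ((n : ℝ) ^ (5 : ℕ)) ^ (1 / 5 : ℝ) := by
            rw [← Real.rpow_natCast, ← Real.rpow_mul (by positivity)]; norm_num
        _ ≤ _ := Real.rpow_le_rpow (by positivity) this (by norm_num)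
    have hkey : ∀ j : ℕ, j ≤ n → |a (N + 4 * j) / (mu ^ (4 * j) * a N) - 1| ≤ 1 / 4 := by
      intro j hj
      have hj' : (j : ℝ) ≤ n := by exact_mod_cast hj
      have h5 : 8 * A * j ≤ (N : ℝ) ^ be := by
        refine le_trans ?_ hb
        have : (j : ℝ) ≤ (N : ℝ) ^ (1 / 5 : ℝ) := hj'.trans hn5
        gcongr
      have h6 := ratio_mul hpos hmu0 hA.le (by linarith : 0 ≤ be) hr N j hN1 (by
        have : 0 ≤ A * j := by positivity
        linarith)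
      refine h6.trans ?_
      rw [div_le_iff₀ (by positivity)]
      linarith
    have hkey2 : ∀ j : ℕ, j ≤ n → 3 / 4 * (mu ^ (4 * j) * a N) ≤ a (N + 4 * j) ∧
        a (N + 4 * j) ≤ 5 / 4 * (mu ^ (4 * j) * a N) := by
      intro j hj
      have h6 := abs_le.1 (hkey j hj)
      have h7 : 0 < mu ^ (4 * j) * a N := by positivity
      constructor
      · rw [← le_div_iff₀ h7]; linarith
      · rw [← div_le_iff₀ h7]; linarith
    set j := n / 4 with hjdef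
    have hj4 : 4 * j ≤ n := by omega
    have hj5 : n ≤ 4 * (j + 1) := by omega
    constructor
    · have h8 := (hkey2 (j + 1) (by omega)).1
      have h9 : a (N + 4 * (j + 1)) ≤ 16 * a (N + n) := by
        have e : N + 4 * (j + 1) = N + n + (4 * (j + 1) - n) := by omega
        rw [e]
        refine (hd _ _ (by omega)).trans ?_
        have : (2 : ℝ) ^ (4 * (j + 1) - n) ≤ 2 ^ 4 := pow_le_pow_right₀ (by norm_num) (by omega)
        have h10 := hpos (N + n)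
        nlinarith
      have h11 : mu ^ n ≤ mu ^ (4 * (j + 1)) := pow_le_pow_right₀ hmu hj5
      have h12 : min M⁻¹ (1 / 32) ≤ 1 / 32 := min_le_right _ _
      calc min M⁻¹ (1 / 32) * mu ^ n * a N ≤ 1 / 32 * mu ^ (4 * (j + 1)) * a N := by gcongr
        _ ≤ a (N + n) := by
          have : 0 ≤ mu ^ (4 * (j + 1)) * a N := by positivity
          nlinarith
    · have h8 := (hkey2 j (by omega)).2
      have h9 : a (N + n) ≤ 8 * a (N + 4 * j) := by
        have e : N + n = N + 4 * j + (n - 4 * j) := by omega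
        rw [e]
        refine (hd _ _ (by omega)).trans ?_
        have : (2 : ℝ) ^ (n - 4 * j) ≤ 2 ^ 3 := pow_le_pow_right₀ (by norm_num) (by omega)
        have h10 := hpos (N + 4 * j)
        nlinarith
      have h11 : mu ^ (4 * j) ≤ mu ^ n := pow_le_pow_right₀ hmu hj4
      have h12 : (16 : ℝ) ≤ max M 16 := le_max_right _ _
      calc a (N + n) ≤ 8 * (5 / 4 * (mu ^ (4 * j) * a N)) := by linarith
        _ = 10 * mu ^ (4 * j) * a N := by ring
        _ ≤ 16 * mu ^ n * a N := by gcongr; norm_num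
        _ ≤ _ := by gcongr

end Pool.Agent.RAT
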