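import Pool.Agent.RAT.B.Ratio
import Pool.Agent.RAT.B.TL
import Pool.Agent.RAT.E.Main

/-!
Project RAT (MP_8c6f77_pr): comparison of `a_(N+n)` with `μ^n a_N`, `N ≥ n^5`, on the honeycomb lattice.
-/

namespace Pool.Agent.RAT

open Pool.Agent.Hhelper14.SAW

lemma one_le_mu : 1 ≤ mu := by
  unfold mu
  have h : Real.cos (Real.pi / 3) ≤ Real.cos (Real.pi / 8) :=
    Real.cos_le_cos_of_nonneg_of_le_pi (by positivity) (by linarith [Real.pi_pos]) (by linarith [Real.pi_pos])
  rw [Real.cos_pi_div_three] at h
  linarith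

theorem cmp_plane : Cmp (fun n => (an n : ℝ)) mu := by
  obtain ⟨A, hA, hr⟩ := ratio_plane (be := 9 / 40) (by norm_num) (by norm_num)
  obtain ⟨K, hK, lo, up⟩ := an_bounds
  refine cmp_of (K := max K 1) ?_ one_le_mu (le_max_right _ _) lo ?_ ?_ hA hr (by norm_num)
  · intro n
    have := cn_pos false n
    rw [cn_false] at this
    exact_mod_cast this
  · intro n hn
    refine (up n hn).trans ?_
    have hn' : (1 : ℝ) ≤ n := by exact_mod_cast hn
    have hKK : K ≤ max K 1 := le_max_left _ _
    refine mul_le_mul_of_nonneg_right ?_ (pow_nonneg mu_pos.le n)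
    exact mul_le_mul hKK (Real.rpow_le_rpow_of_exponent_le hn' hKK) (by positivity) (by linarith)
  · intro n hn
    have := cn_succ_le false n hn
    rw [cn_false, cn_false] at this
    exact_mod_cast this

end Pool.Agent.RAT
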