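import Mathlib

/-!
Project RAT (MP_8c6f77_pr), (B5): the number of half-plane walks is at least `n^(-C) μ^n / C`, abstract sequences.

`h (k) ≤ h n * a (k - n)` for `k ≥ n`; in the cut `a (2n+2) ≤ C0 ∑_{k+l ∈ {2n, 2n+1, 2n+2}} h k * h l` one of the two
indices is `≥ n`, the other factor is polynomial.
-/

namespace Pool.Agent.RAT

open Finset

theorem hlow {a h : ℕ → ℝ} {mu K C0 : ℝ} (hmu : 1 ≤ mu) (hK : 1 ≤ K) (hC0 : 0 < C0) (hnn : ∀ n, 0 ≤ h n)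
    (lo : ∀ n : ℕ, 1 ≤ n → mu ^ n ≤ a n) (a0 : a 0 ≤ 1) (ann : ∀ n, 0 ≤ a n)
    (up : ∀ n : ℕ, 1 ≤ n → a n ≤ K * (n : ℝ) ^ K * mu ^ n)
    (hsub : ∀ n m, h (n + m) ≤ h n * a m) (hha : ∀ n, h n ≤ a n)
    (hcut : ∀ m : ℕ, 2 ≤ m → a m ≤ C0 * ∑ m' ∈ ({m, m - 1, m - 2} : Finset ℕ), ∑ p ∈ antidiagonal m', h p.1 * h p.2) :
    ∃ K' : ℝ, 0 < K' ∧ ∀ n : ℕ, 1 ≤ n → (n : ℝ) ^ (-K') / K' * mu ^ n ≤ h n := by
  have hmu0 : 0 < mu := by linarith
  have hK0 : 0 < K := by linarith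
  have up' : ∀ n : ℕ, a n ≤ K * ((n : ℝ) + 1) ^ K * mu ^ n := by
    intro n
    rcases Nat.eq_zero_or_pos n with rfl | hn
    · simpa using a0.trans hK
    · refine (up n hn).trans ?_
      have : (n : ℝ) ^ K ≤ ((n : ℝ) + 1) ^ K := Real.rpow_le_rpow (by positivity) (by linarith) hK0.le
      gcongr
  set M : ℝ := 3 * C0 * K ^ 2 * 5 ^ (2 * K + 1) with hM
  have hMp : 0 < M := by positivity
  refine ⟨max (2 * K + 1) M, lt_max_of_lt_right hMp, fun n hn => ?_⟩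
  have hn' : (1 : ℝ) ≤ n := by exact_mod_cast hn
  have hn0 : (0 : ℝ) < n := by linarith
  -- the value of one term
  have hterm : ∀ k l : ℕ, n ≤ k → k + l ≤ 2 * n + 2 →
      h k * h l ≤ h n * (K ^ 2 * (5 * (n : ℝ)) ^ (2 * K)) * mu ^ (n + 2) := by
    intro k l hk hkl
    obtain ⟨i, rfl⟩ := Nat.exists_eq_add_of_le hk
    have h1 := hsub n i
    have h2 := up' i
    have h3 := (hha l).trans (up' l)
    have e1 : ((i : ℝ) + 1) ^ K ≤ (5 * (n : ℝ)) ^ K := by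
      refine Real.rpow_le_rpow (by positivity) ?_ hK0.le
      have : (i : ℝ) ≤ n + 2 := by exact_mod_cast (by omega : i ≤ n + 2)
      linarith
    have e2 : ((l : ℝ) + 1) ^ K ≤ (5 * (n : ℝ)) ^ K := by
      refine Real.rpow_le_rpow (by positivity) ?_ hK0.le
      have : (l : ℝ) ≤ n + 2 := by exact_mod_cast (by omega : l ≤ n + 2)
      linarith
    have e3 : (5 * (n : ℝ)) ^ (2 * K) = (5 * (n : ℝ)) ^ K * (5 * (n : ℝ)) ^ K := by
      rw [← Real.rpow_add (by positivity)]; congr 1; ring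
    have e4 : mu ^ (i + l) ≤ mu ^ (n + 2) := pow_le_pow_right₀ hmu (by omega)
    calc h (n + i) * h l ≤ (h n * a i) * (K * ((l : ℝ) + 1) ^ K * mu ^ l) :=
          mul_le_mul h1 h3 (hnn _) (mul_nonneg (hnn _) (ann _))
      _ ≤ (h n * (K * ((i : ℝ) + 1) ^ K * mu ^ i)) * (K * ((l : ℝ) + 1) ^ K * mu ^ l) := by
          refine mul_le_mul_of_nonneg_right (mul_le_mul_of_nonneg_left h2 (hnn _)) (by positivity)
      _ = h n * K ^ 2 * (((i : ℝ) + 1) ^ K * ((l : ℝ) + 1) ^ K) * mu ^ (i + l) := by rw [pow_add]; ring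
      _ ≤ h n * K ^ 2 * ((5 * (n : ℝ)) ^ K * (5 * (n : ℝ)) ^ K) * mu ^ (n + 2) := by
          have := hnn n
          gcongr
      _ = _ := by rw [e3]; ring
  have hterm' : ∀ m' ∈ ({2 * n + 2, 2 * n + 2 - 1, 2 * n + 2 - 2} : Finset ℕ), ∀ p ∈ antidiagonal m',
      h p.1 * h p.2 ≤ h n * (K ^ 2 * (5 * (n : ℝ)) ^ (2 * K)) * mu ^ (n + 2) := by
    intro m' hm' p hp
    rw [HasAntidiagonal.mem_antidiagonal] at hp
    have hm2 : m' ≤ 2 * n + 2 ∧ 2 * n ≤ m' := by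
      simp only [mem_insert, mem_singleton] at hm'; omega
    rcases le_total n p.1 with h1 | h1
    · exact hterm p.1 p.2 h1 (by omega)
    · rw [mul_comm (h p.1)]
      exact hterm p.2 p.1 (by omega) (by omega)
  set T : ℝ := h n * (K ^ 2 * (5 * (n : ℝ)) ^ (2 * K)) * mu ^ (n + 2) with hT
  have hT0 : 0 ≤ T := by
    have := hnn n
    positivity
  have hinner : ∀ m' ∈ ({2 * n + 2, 2 * n + 2 - 1, 2 * n + 2 - 2} : Finset ℕ),
      ∑ p ∈ antidiagonal m', h p.1 * h p.2 ≤ 5 * n * T := by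
    intro m' hm'
    have h1 := sum_le_card_nsmul _ _ _ (hterm' m' hm')
    rw [nsmul_eq_mul, Nat.card_antidiagonal] at h1
    refine h1.trans ?_
    have hm2 : m' ≤ 2 * n + 2 := by
      simp only [mem_insert, mem_singleton] at hm'; omega
    have : ((m' + 1 : ℕ) : ℝ) ≤ 5 * n := by exact_mod_cast (by omega : m' + 1 ≤ 5 * n)
    exact mul_le_mul_of_nonneg_right this hT0
  have hsum : ∑ m' ∈ ({2 * n + 2, 2 * n + 2 - 1, 2 * n + 2 - 2} : Finset ℕ), ∑ p ∈ antidiagonal m', h p.1 * h p.2 ≤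
      3 * (5 * n * T) := by
    have h1 := sum_le_card_nsmul _ _ _ hinner
    rw [nsmul_eq_mul] at h1
    refine h1.trans ?_
    have h2 : (({2 * n + 2, 2 * n + 2 - 1, 2 * n + 2 - 2} : Finset ℕ).card : ℝ) ≤ 3 := by
      exact_mod_cast card_le_three
    exact mul_le_mul_of_nonneg_right h2 (by positivity)
  have hfin : mu ^ (2 * n + 2) ≤ C0 * (3 * (5 * n * T)) :=
    (lo _ (by omega)).trans ((hcut _ (by omega)).trans (mul_le_mul_of_nonneg_left hsum hC0.le))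
  -- divide
  have e1 : mu ^ (2 * n + 2) = mu ^ n * mu ^ (n + 2) := by rw [← pow_add]; congr 1; omega
  have e2 : C0 * (3 * (5 * n * T)) = (M * (n : ℝ) ^ (2 * K + 1) * h n) * mu ^ (n + 2) := by
    have e3 : (5 * (n : ℝ)) * (5 * (n : ℝ)) ^ (2 * K) = 5 ^ (2 * K + 1) * (n : ℝ) ^ (2 * K + 1) := by
      rw [← Real.mul_rpow (by norm_num) (by positivity), Real.rpow_add (by positivity) (2 * K) 1, Real.rpow_one]
      ring
    rw [hT, hM]
    calc _ = 3 * C0 * K ^ 2 * ((5 * (n : ℝ)) * (5 * (n : ℝ)) ^ (2 * K)) * h n * mu ^ (n + 2) := by ring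
      _ = _ := by rw [e3]; ring
  rw [e1, e2] at hfin
  have h4 : mu ^ n ≤ M * (n : ℝ) ^ (2 * K + 1) * h n := le_of_mul_le_mul_right hfin (by positivity)
  have h5 : (n : ℝ) ^ (-(max (2 * K + 1) M)) ≤ (n : ℝ) ^ (-(2 * K + 1)) :=
    Real.rpow_le_rpow_of_exponent_le hn' (neg_le_neg (le_max_left _ _))
  have h6 : (n : ℝ) ^ (-(2 * K + 1)) * (n : ℝ) ^ (2 * K + 1) = 1 := by
    rw [← Real.rpow_add hn0]; simp
  calc (n : ℝ) ^ (-(max (2 * K + 1) M)) / max (2 * K + 1) M * mu ^ n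
      ≤ (n : ℝ) ^ (-(2 * K + 1)) / M * mu ^ n := by
        have : M ≤ max (2 * K + 1) M := le_max_right _ _
        gcongr
    _ ≤ (n : ℝ) ^ (-(2 * K + 1)) / M * (M * (n : ℝ) ^ (2 * K + 1) * h n) := by gcongr
    _ = ((n : ℝ) ^ (-(2 * K + 1)) * (n : ℝ) ^ (2 * K + 1)) * h n := by field_simp
    _ = h n := by rw [h6, one_mul]

end Pool.Agent.RAT
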