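import Pool.Agent.RAT.B.Bad

/-!
Project RAT (MP_8c6f77_pr), (B2): the two identities of the near convexity from the double counting of the flips.
-/

namespace Pool.Agent.RAT.Sur

open Finset

variable {W : Type*} {mu K r c0 : ℝ} {n0 : ℕ} {C : ℕ → Finset W} {u v : W → ℕ}

theorem id1 (h : Sur mu K r c0 n0 C u v) (n : ℕ) :
    ∑ w ∈ C n, (u w : ℝ) / ((v w : ℝ) + 1) = ((C (n + 4)).filter fun w => 1 ≤ v w).card := by
  have hf := h.flip n (fun _ y => 1 / (y : ℝ))
  rw [card_filter]
  push_cast
  calc _ = ∑ w ∈ C n, (u w : ℝ) * (1 / ((v w + 1 : ℕ) : ℝ)) := by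
        refine sum_congr rfl fun w _ => ?_
        push_cast; ring
    _ = _ := hf
    _ = _ := by
        refine sum_congr rfl fun w _ => ?_
        split_ifs with h1
        · have : (v w : ℝ) ≠ 0 := by
            have : v w ≠ 0 := by omega
            exact_mod_cast this
          field_simp
        · have : v w = 0 := by omega
          simp [this]

theorem id2 (h : Sur mu K r c0 n0 C u v) (n : ℕ) :
    ∑ w ∈ C n, (u w : ℝ) * ((u w : ℝ) - 1) / (((v w : ℝ) + 1) * ((v w : ℝ) + 2)) =
      ((C (n + 8)).filter fun w => 2 ≤ v w).card := by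
  have h1 := h.flip (n + 4) (fun _ y => if 2 ≤ y then 1 / (y : ℝ) else 0)
  have h2 := h.flip n (fun x y => if 1 ≤ y then (x : ℝ) / ((y : ℝ) * ((y : ℝ) + 1)) else 0)
  rw [card_filter]
  push_cast
  calc _ = ∑ w ∈ C n, (u w : ℝ) * (if 1 ≤ v w + 1 then ((u w - 1 : ℕ) : ℝ) /
        (((v w + 1 : ℕ) : ℝ) * (((v w + 1 : ℕ) : ℝ) + 1)) else 0) := by
        refine sum_congr rfl fun w _ => ?_
        rw [if_pos (by omega)]
        rcases Nat.eq_zero_or_pos (u w) with h0 | h0
        · simp [h0]
        · push_cast [Nat.cast_sub h0]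
          rw [mul_div_assoc]
          congr 2
          ring
    _ = ∑ w ∈ C (n + 4), (v w : ℝ) * (if 1 ≤ v w then (u w : ℝ) / ((v w : ℝ) * ((v w : ℝ) + 1)) else 0) := h2
    _ = ∑ w ∈ C (n + 4), (u w : ℝ) * (if 2 ≤ v w + 1 then 1 / ((v w + 1 : ℕ) : ℝ) else 0) := by
        refine sum_congr rfl fun w _ => ?_
        by_cases h0 : 1 ≤ v w
        · rw [if_pos h0, if_pos (by omega)]
          have : (v w : ℝ) ≠ 0 := by
            have : v w ≠ 0 := by omega
            exact_mod_cast this
          push_cast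
          field_simp
        · rw [if_neg h0, if_neg (by omega)]
          simp
    _ = ∑ w ∈ C (n + 8), (v w : ℝ) * (if 2 ≤ v w then 1 / (v w : ℝ) else 0) := h1
    _ = _ := by
        refine sum_congr rfl fun w _ => ?_
        split_ifs with h0
        · have : (v w : ℝ) ≠ 0 := by
            have : v w ≠ 0 := by omega
            exact_mod_cast this
          field_simp
        · simp

end Pool.Agent.RAT.Sur
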