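import Pool.Agent.RAT.A.Ratio
import Pool.Agent.RAT.B.Bad
import Pool.Agent.PLY.Main

/-!
Project RAT (MP_8c6f77_pr), (B3): THE RATIO THEOREM WITH RATE on the honeycomb lattice, plane and half plane, from the
polynomial bounds alone: `c_(n+4) = μ^4 c_n (1 + O(n^(-β)))` for every `β < 1/4`.
-/

namespace Pool.Agent.RAT

open Finset Pool.Agent.Hhelper14.SAW

/-- The honeycomb walks in the plane (`b = false`) and in the half plane (`b = true`) satisfy the hypotheses. -/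
theorem sur_cn (b : Bool) {K : ℝ} (hK : 0 < K) (lo : ∀ n : ℕ, 1 ≤ n → (n : ℝ) ^ (-K) / K * mu ^ n ≤ cn b n)
    (up : ∀ n : ℕ, 1 ≤ n → (cn b n : ℝ) ≤ K * (n : ℝ) ^ K * mu ^ n) :
    Sur mu K (1 / 24) 72 5184 (WF b) (thin b) (fat b) where
  mu_pos := mu_pos
  K_pos := hK
  r_pos := by norm_num
  c0_pos := by norm_num
  lo := lo
  up := up
  hR := by
    intro n hn j
    have h := rec_thin b n hn j
    have e : ∀ m i, fewThin b m i = fw (WF b) (thin b) m i := fun m i => by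
      unfold fewThin fw; congr
    simp only [e] at h
    calc _ = Real.sqrt n / 24 * (fw (WF b) (thin b) n j : ℝ) := by ring
      _ ≤ _ := h
  flip := fun n G => flip_sum b n G

theorem ratio_bd (b : Bool) {K : ℝ} (hK : 0 < K) (lo : ∀ n : ℕ, 1 ≤ n → (n : ℝ) ^ (-K) / K * mu ^ n ≤ cn b n)
    (up : ∀ n : ℕ, 1 ≤ n → (cn b n : ℝ) ≤ K * (n : ℝ) ^ K * mu ^ n) {be : ℝ} (hb0 : 0 < be) (hb : be < 1 / 4) :
    ∃ A : ℝ, 0 < A ∧ ∀ n : ℕ, 1 ≤ n → |(cn b (n + 4) : ℝ) / (mu ^ 4 * (cn b n : ℝ)) - 1| ≤ A / (n : ℝ) ^ be :=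
  ratio_cn b mu_pos hK (α := be + 1 / 4) (by linarith) hb0 (by linarith) lo up fun k =>
    (sur_cn b hK lo up).bad (by linarith) k

/-- Polynomial bounds in the plane. -/
theorem an_bounds : ∃ K : ℝ, 0 < K ∧ (∀ n : ℕ, 1 ≤ n → mu ^ n ≤ (an n : ℝ)) ∧
    ∀ n : ℕ, 1 ≤ n → (an n : ℝ) ≤ K * (n : ℝ) ^ K * mu ^ n := by
  obtain ⟨C, hC, h⟩ := Pool.Agent.HEP.poly
  refine ⟨C, hC, mu_pow_le, fun n hn => ?_⟩
  have := (h n hn).1
  rwa [muL_eq hw_quant, a_eq] at this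

/-- RATIO THEOREM WITH RATE in the plane. -/
theorem ratio_plane {be : ℝ} (hb0 : 0 < be) (hb : be < 1 / 4) :
    ∃ A : ℝ, 0 < A ∧ ∀ n : ℕ, 1 ≤ n → |(an (n + 4) : ℝ) / (mu ^ 4 * (an n : ℝ)) - 1| ≤ A / (n : ℝ) ^ be := by
  obtain ⟨K, hK, lo, up⟩ := an_bounds
  set K' := max K 1 with hK'
  have hK1 : 1 ≤ K' := le_max_right _ _
  have hKK : K ≤ K' := le_max_left _ _
  have := ratio_bd false (K := K') (by linarith) ?_ ?_ hb0 hb
  · simpa only [cn_false] using this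
  · intro n hn
    rw [cn_false]
    refine le_trans ?_ (lo n hn)
    have hn' : (1 : ℝ) ≤ n := by exact_mod_cast hn
    have h1 : (n : ℝ) ^ (-K') ≤ 1 := Real.rpow_le_one_of_one_le_of_nonpos hn' (by linarith)
    have h2 : (n : ℝ) ^ (-K') / K' ≤ 1 := by
      rw [div_le_one (by linarith)]; linarith
    have h3 : 0 ≤ mu ^ n := pow_nonneg mu_pos.le n
    nlinarith
  · intro n hn
    rw [cn_false]
    refine (up n hn).trans ?_
    have hn' : (1 : ℝ) ≤ n := by exact_mod_cast hn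
    refine mul_le_mul_of_nonneg_right ?_ (pow_nonneg mu_pos.le n)
    exact mul_le_mul hKK (Real.rpow_le_rpow_of_exponent_le hn' hKK) (by positivity) (by linarith)

end Pool.Agent.RAT
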