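import Pool.Agent.RAT.B.Ratio
import Pool.Agent.RAT.B.HLow
import Pool.Agent.RAT.B.Cmp
import Pool.Agent.RAT.D.Cut1
import Pool.Agent.RAT.D.Cut2

/-!
Project RAT (MP_8c6f77_pr): polynomial bounds and ratio theorem with rate for the half-plane walks.
-/

namespace Pool.Agent.RAT

open Finset Pool.Agent.Hhelper14.SAW

lemma cn_le_an (b : Bool) (n : ℕ) : cn b n ≤ an n := by
  have e : cn b n = (W b n).ncard := by
    unfold cn WF
    rw [← Set.ncard_eq_toFinset_card _ (W_finite b n)]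
  rw [e]
  exact Set.ncard_le_ncard (fun _ h => h.1) (walk_finite n)

lemma an_zero_le : an 0 ≤ 1 := by
  have h0 : {P | IsWalk 0 P} ⊆ {[o]} := by
    rintro P ⟨h1, -, -, h4⟩
    match P, h1 with
    | [x], _ =>
      simp only [List.getLast?_singleton, Option.some.injEq] at h4
      rw [h4]; rfl
  calc an 0 ≤ ({[o]} : Set (List (ℤ × ℤ))).ncard := Set.ncard_le_ncard h0 (Set.finite_singleton _)
    _ = 1 := Set.ncard_singleton _

/-- The number of half-plane walks is at least `n^(-K) μ^n / K`. -/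
theorem cn_low : ∃ K : ℝ, 0 < K ∧ ∀ n : ℕ, 1 ≤ n → (n : ℝ) ^ (-K) / K * mu ^ n ≤ cn true n := by
  obtain ⟨K, hK, lo, up⟩ := an_bounds
  refine hlow (a := fun n => (an n : ℝ)) (h := fun n => (cn true n : ℝ)) (K := max K 1) (C0 := 1) one_le_mu
    (le_max_right _ _) one_pos (fun n => Nat.cast_nonneg _) lo (by exact_mod_cast an_zero_le)
    (fun n => Nat.cast_nonneg _) ?_ ?_ ?_ ?_
  · intro n hn
    refine (up n hn).trans ?_
    have hn' : (1 : ℝ) ≤ n := by exact_mod_cast hn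
    have hKK : K ≤ max K 1 := le_max_left _ _
    refine mul_le_mul_of_nonneg_right ?_ (pow_nonneg mu_pos.le n)
    exact mul_le_mul hKK (Real.rpow_le_rpow_of_exponent_le hn' hKK) (by positivity) (by linarith)
  · intro n m
    exact_mod_cast cn_add_le true n m
  · intro n
    exact_mod_cast cn_le_an true n
  · intro m hm
    rw [one_mul]
    have h1 := an_le_sum m
    have h2 : ∀ m' : ℕ, ((∑ p ∈ HasAntidiagonal.antidiagonal m', dn p.1 p.2 : ℕ) : ℝ) ≤
        ∑ p ∈ HasAntidiagonal.antidiagonal m', (cn true p.1 : ℝ) * cn true p.2 := by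
      intro m'
      rw [Nat.cast_sum]
      refine sum_le_sum fun p _ => ?_
      exact_mod_cast dn_le p.1 p.2
    have h3 : ((an m : ℕ) : ℝ) ≤ ((∑ i ∈ range 3, ∑ p ∈ HasAntidiagonal.antidiagonal (m - i), dn p.1 p.2 : ℕ) : ℝ) := by
      exact_mod_cast h1
    refine h3.trans ?_
    rw [Nat.cast_sum, sum_range_succ, sum_range_succ, sum_range_one, sum_insert, sum_insert, sum_singleton]
    · have a0 := h2 (m - 0)
      have a1 := h2 (m - 1)
      have a2 := h2 (m - 2)
      rw [Nat.sub_zero] at a0 ⊢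
      linarith
    · rw [mem_singleton]; omega
    · simp only [mem_insert, mem_singleton]; omega

/-- Polynomial bounds for the half-plane walks. -/
theorem cn_bounds : ∃ K : ℝ, 0 < K ∧ (∀ n : ℕ, 1 ≤ n → (n : ℝ) ^ (-K) / K * mu ^ n ≤ cn true n) ∧
    ∀ n : ℕ, 1 ≤ n → (cn true n : ℝ) ≤ K * (n : ℝ) ^ K * mu ^ n := by
  obtain ⟨K1, hK1, lo⟩ := cn_low
  obtain ⟨K2, hK2, -, up⟩ := an_bounds
  refine ⟨max K1 K2, lt_max_of_lt_left hK1, fun n hn => ?_, fun n hn => ?_⟩
  · have hn' : (1 : ℝ) ≤ n := by exact_mod_cast hn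
    refine le_trans ?_ (lo n hn)
    have h1 : K1 ≤ max K1 K2 := le_max_left _ _
    have h2 : (n : ℝ) ^ (-(max K1 K2)) ≤ (n : ℝ) ^ (-K1) := Real.rpow_le_rpow_of_exponent_le hn' (neg_le_neg h1)
    refine mul_le_mul_of_nonneg_right ?_ (pow_nonneg mu_pos.le n)
    exact div_le_div₀ (by positivity) h2 hK1 h1
  · have hn' : (1 : ℝ) ≤ n := by exact_mod_cast hn
    have h1 : K2 ≤ max K1 K2 := le_max_right _ _
    have h0 : (cn true n : ℝ) ≤ an n := by exact_mod_cast cn_le_an true n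
    refine (h0.trans (up n hn)).trans ?_
    refine mul_le_mul_of_nonneg_right ?_ (pow_nonneg mu_pos.le n)
    exact mul_le_mul h1 (Real.rpow_le_rpow_of_exponent_le hn' h1) (by positivity) (by positivity)

/-- RATIO THEOREM WITH RATE in the half plane. -/
theorem ratio_half {be : ℝ} (hb0 : 0 < be) (hb : be < 1 / 4) :
    ∃ A : ℝ, 0 < A ∧ ∀ n : ℕ, 1 ≤ n → |(cn true (n + 4) : ℝ) / (mu ^ 4 * (cn true n : ℝ)) - 1| ≤ A / (n : ℝ) ^ be := by
  obtain ⟨K, hK, lo, up⟩ := cn_bounds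
  exact ratio_bd true hK lo up hb0 hb

end Pool.Agent.RAT
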